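import Pool.Agent.helper27.CHS.Spec

/-!
# Row chs:TL (MP_5628fe_nt): the exponential bound for the doubled block
-/

set_option autoImplicit false

namespace Pool.Agent.CHS

open Finset Pool.Agent.SX

theorem TL_fac (j : ℕ) (hj : 14 ≤ j) :
    5 * ((31 / 20 : ℝ) ^ j / (j.factorial : ℝ)) ≤ 300 / 3 ^ (j + 1) := by
  induction j, hj using Nat.le_induction with
  | base => norm_num [Nat.factorial]
  | succ j hj ih =>
    have hjR : (14 : ℝ) ≤ j := by exact_mod_cast hj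
    have hf : (0 : ℝ) < (j.factorial : ℝ) := by exact_mod_cast Nat.factorial_pos j
    have e1 : 5 * ((31 / 20 : ℝ) ^ (j + 1) / ((j + 1).factorial : ℝ)) =
        5 * ((31 / 20 : ℝ) ^ j / (j.factorial : ℝ)) * ((31 / 20) / ((j : ℝ) + 1)) := by
      rw [Nat.factorial_succ]
      push_cast
      field_simp
      ring
    have e2 : (300 : ℝ) / 3 ^ (j + 1 + 1) = 300 / 3 ^ (j + 1) * (1 / 3) := by
      rw [pow_succ (3 : ℝ) (j + 1)]
      field_simp
    rw [e1, e2]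
    refine mul_le_mul ih ?_ (by positivity) (by positivity)
    rw [div_le_div_iff₀ (by positivity) (by norm_num)]
    linarith

theorem TL_exp : Real.exp (279 / 20) ≤ 1203000 := by
  have h1 : Real.exp (279 / 20) ≤ Real.exp 1 ^ 14 := by
    rw [← Real.exp_nat_mul]
    exact Real.exp_le_exp.2 (by norm_num)
  have h2 : Real.exp 1 ^ 14 ≤ (2.7182818286 : ℝ) ^ 14 :=
    pow_le_pow_left₀ (Real.exp_pos 1).le Real.exp_one_lt_d9.le 14
  have h3 : (2.7182818286 : ℝ) ^ 14 ≤ 1203000 := by norm_num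
  linarith

/-- The numerical estimate. -/
theorem TL_val (e : ℕ → ℝ) (W : ℝ) (m K : ℕ) (hm : 15 ≤ m) (hK1 : K + 1 ≤ m) (hK2 : m ≤ K + 2)
    (hV : 1 / 5 ≤ W) (hek0 : ∀ k, 0 ≤ e k)
    (hek : ∀ k, e k ≤ (31 / 20 : ℝ) ^ k / (k.factorial : ℝ)) :
    (∑ k ∈ range (K + 1), e k * (600 / 3 ^ (2 * (m - k))) + e (K + 1)) / W ≤
      600 / 3 ^ m := by
  have hVpos : 0 < W := by linarith
  have hs : ∑ k ∈ range (K + 1), e k * (600 / 3 ^ (2 * (m - k))) ≤ 600 / 9 ^ m * 1203000 := by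
    have h1 : ∀ k ∈ range (K + 1), e k * (600 / 3 ^ (2 * (m - k))) ≤
        600 / 9 ^ m * ((279 / 20 : ℝ) ^ k / (k.factorial : ℝ)) := by
      intro k hk
      have hkm : k ≤ m := by have := mem_range.1 hk; omega
      have e1 : (3 : ℝ) ^ (2 * (m - k)) = 9 ^ m / 9 ^ k := by
        rw [pow_mul, eq_div_iff (by positivity), show ((3 : ℝ) ^ 2) = 9 by norm_num, ← pow_add,
          Nat.sub_add_cancel hkm]
      have e2 : (279 / 20 : ℝ) ^ k = (31 / 20) ^ k * 9 ^ k := by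
        rw [← mul_pow]; norm_num
      have hf : (0 : ℝ) < (k.factorial : ℝ) := by exact_mod_cast Nat.factorial_pos k
      calc e k * (600 / 3 ^ (2 * (m - k)))
          ≤ (31 / 20 : ℝ) ^ k / (k.factorial : ℝ) * (600 / 3 ^ (2 * (m - k))) :=
            mul_le_mul_of_nonneg_right (hek k) (by positivity)
        _ = 600 / 9 ^ m * ((279 / 20 : ℝ) ^ k / (k.factorial : ℝ)) := by
            rw [e1, e2]
            field_simp
    calc _ ≤ ∑ k ∈ range (K + 1), 600 / 9 ^ m * ((279 / 20 : ℝ) ^ k / (k.factorial : ℝ)) :=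
          sum_le_sum h1
      _ = 600 / 9 ^ m * ∑ k ∈ range (K + 1), (279 / 20 : ℝ) ^ k / (k.factorial : ℝ) := by
          rw [mul_sum]
      _ ≤ 600 / 9 ^ m * Real.exp (279 / 20) :=
          mul_le_mul_of_nonneg_left (Real.sum_le_exp_of_nonneg (by norm_num) _) (by positivity)
      _ ≤ 600 / 9 ^ m * 1203000 := mul_le_mul_of_nonneg_left TL_exp (by positivity)
  have h3m : (14348907 : ℝ) ≤ 3 ^ m := by
    calc (14348907 : ℝ) = 3 ^ 15 := by norm_num
      _ ≤ 3 ^ m := pow_le_pow_right₀ (by norm_num) hm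
  have e9 : (9 : ℝ) ^ m = 3 ^ m * 3 ^ m := by
    rw [← mul_pow]; norm_num
  have h1 : 5 * (600 / 9 ^ m * 1203000) ≤ 300 / (3 : ℝ) ^ m := by
    have hp : (0 : ℝ) < 3 ^ m := by positivity
    rw [e9]
    have e3 : 5 * (600 / ((3 : ℝ) ^ m * 3 ^ m) * 1203000) = 300 / 3 ^ m * (12030000 / 3 ^ m) := by
      field_simp
      norm_num
    rw [e3]
    have h4 : 12030000 / (3 : ℝ) ^ m ≤ 1 := by
      rw [div_le_one hp]; linarith
    calc 300 / (3 : ℝ) ^ m * (12030000 / 3 ^ m) ≤ 300 / 3 ^ m * 1 :=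
          mul_le_mul_of_nonneg_left h4 (by positivity)
      _ = 300 / 3 ^ m := mul_one _
  have h2 : 5 * e (K + 1) ≤ 300 / (3 : ℝ) ^ m := by
    have h4 := TL_fac (K + 1) (by omega)
    have h5 : (300 : ℝ) / 3 ^ (K + 1 + 1) ≤ 300 / 3 ^ m := by
      refine div_le_div_of_nonneg_left (by norm_num) (by positivity) ?_
      exact pow_le_pow_right₀ (by norm_num) (by omega)
    have h6 := hek (K + 1)
    linarith
  rw [div_le_iff₀ hVpos]
  have h7 : 600 / (3 : ℝ) ^ m * (1 / 5) ≤ 600 / 3 ^ m * W :=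
    mul_le_mul_of_nonneg_left hV (by positivity)
  have h8 : (600 : ℝ) / 3 ^ m = 2 * (300 / 3 ^ m) := by ring
  rw [h8] at h7 ⊢
  linarith

theorem TL (_hPA : PA_stmt) (hMB : MB_stmt) (hBS : BS_stmt) (hEB : EB_stmt) : TL_stmt := by
  intro x h hx hxh hTail hsmall hsig hV m hm
  have h0 : 0 ≤ h := by linarith
  have hle : h ≤ 2 * h := by linarith
  have hx2 : 2 ≤ x := by linarith
  obtain ⟨-, hE, -⟩ := hEB h (2 * h) (31 / 20) (by linarith) hle hsig
  have key : ∀ j : ℕ, 2 ≤ j → WLo x h (j * h) (600 / 3 ^ j) ∧ WUp x h (j * h) (600 / 3 ^ j) := by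
    intro j hj
    by_cases h15 : 15 ≤ j
    · exact hTail j h15
    · exact hsmall j hj (by omega)
  have hB : ∀ K k : ℕ, K + 1 ≤ m → k ≤ K →
      (m : ℝ) * (2 * h) - k * (2 * h) = ((2 * (m - k) : ℕ) : ℝ) * h := by
    intro K k hK hk
    have hkm : k ≤ m := by omega
    rw [Nat.cast_mul, Nat.cast_sub hkm]
    push_cast
    ring
  have hKB : ∀ K : ℕ, K + 1 ≤ m → (K : ℝ) * (2 * h) ≤ m * (2 * h) := by
    intro K hK
    refine mul_le_mul_of_nonneg_right ?_ (by linarith)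
    exact_mod_cast (by omega : K ≤ m)
  have hlo : ∀ K : ℕ, K + 1 ≤ m → m ≤ K + 2 → Odd K → WLo x (2 * h) (m * (2 * h)) (600 / 3 ^ m) := by
    intro K hK1 hK2 hodd
    have h1 := (hBS x h (2 * h) (m * (2 * h)) K (fun k => 600 / 3 ^ (2 * (m - k))) hx2 hxh hle
      (hKB K hK1)).1 hodd (by
        intro k hk
        rw [hB K k hK1 hk]
        have := key (2 * (m - k)) (by omega)
        exact ⟨fun _ => this.1, fun _ => this.2⟩)
    exact hMB.1 _ _ _ _ _ _ hx2 le_rfl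
      (TL_val _ _ m K hm hK1 hK2 hV (fun k => (hE k).1) (fun k => (hE k).2)) h1
  have hup : ∀ K : ℕ, K + 1 ≤ m → m ≤ K + 2 → Even K → WUp x (2 * h) (m * (2 * h)) (600 / 3 ^ m) := by
    intro K hK1 hK2 heven
    have h1 := (hBS x h (2 * h) (m * (2 * h)) K (fun k => 600 / 3 ^ (2 * (m - k))) hx2 hxh hle
      (hKB K hK1)).2 heven (by
        intro k hk
        rw [hB K k hK1 hk]
        have := key (2 * (m - k)) (by omega)
        exact ⟨fun _ => this.2, fun _ => this.1⟩)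
    exact hMB.2.1 _ _ _ _ _ _ hx2 le_rfl
      (TL_val _ _ m K hm hK1 hK2 hV (fun k => (hE k).1) (fun k => (hE k).2)) h1
  rcases Nat.even_or_odd m with hme | hmo
  · obtain ⟨r, hr⟩ := hme
    refine ⟨hlo (m - 1) (by omega) (by omega) ?_, hup (m - 2) (by omega) (by omega) ?_⟩
    · exact ⟨r - 1, by omega⟩
    · exact ⟨r - 1, by omega⟩
  · obtain ⟨r, hr⟩ := hmo
    refine ⟨hlo (m - 2) (by omega) (by omega) ?_, hup (m - 1) (by omega) (by omega) ?_⟩
    · exact ⟨r - 1, by omega⟩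
    · exact ⟨r, by omega⟩

end Pool.Agent.CHS
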